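import Pool.Agent.W654.SG.Top

/-!
# Sequential order
-/

set_option autoImplicit false

namespace Pool.Agent.W654.IO

open Filter Topology

/-- the iterated sequential closures: `[A]_0 = A`, `[A]_{α+1}` is the set of the limits of the
convergent sequences of points of `[A]_α`, and unions at limits -/
noncomputable def seqIter {X : Type} [TopologicalSpace X] (A : Set X) (α : Ordinal.{0}) : Set X :=
  Ordinal.limitRecOn α A (fun _ B => seqClosure B) (fun β _ f => ⋃ γ : Set.Iio β, f γ.1 γ.2)

/-- the sequential order: the least `α` with `[A]_α = closure A` for all `A` -/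
noncomputable def seqOrder (X : Type) [TopologicalSpace X] : Ordinal.{0} :=
  sInf {α | ∀ A : Set X, seqIter A α = closure A}

/-- a group topology which is Hausdorff -/
def IsGroupTop (G : Type) [Group G] (t : TopologicalSpace G) : Prop :=
  @IsTopologicalGroup G t _ ∧ @T2Space G t

/-- the group admits a nondiscrete Hausdorff group topology -/
def Topologizable (G : Type) [Group G] : Prop :=
  ∃ t : TopologicalSpace G, IsGroupTop G t ∧ ¬ @DiscreteTopology G t

/-- the group admits a sequential Hausdorff group topology of intermediate sequential order -/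
def HasIntermediate (G : Type) [Group G] : Prop :=
  ∃ t : TopologicalSpace G, IsGroupTop G t ∧ @SequentialSpace G t ∧
    1 < @seqOrder G t ∧ @seqOrder G t < Ordinal.omega 1

section

variable {X : Type} [TopologicalSpace X]

lemma seqIter_zero (A : Set X) : seqIter A 0 = A := Ordinal.limitRecOn_zero _ _ _

lemma seqIter_succ (A : Set X) (α : Ordinal.{0}) :
    seqIter A (Order.succ α) = seqClosure (seqIter A α) := Ordinal.limitRecOn_succ _ _ _ _

lemma seqIter_one (A : Set X) : seqIter A 1 = seqClosure A := by
  have : (1 : Ordinal.{0}) = Order.succ 0 := by simp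
  rw [this, seqIter_succ, seqIter_zero]

lemma seqIter_two (A : Set X) : seqIter A 2 = seqClosure (seqClosure A) := by
  have : (2 : Ordinal.{0}) = Order.succ 1 := by
    rw [← one_add_one_eq_two, Ordinal.add_one_eq_succ]
  rw [this, seqIter_succ, seqIter_one]

lemma seqOrder_discrete [DiscreteTopology X] : seqOrder X = 0 := by
  refine le_antisymm ?_ zero_le
  apply csInf_le'
  intro A
  rw [seqIter_zero, closure_discrete]

lemma seqOrder_two (h2 : ∀ A : Set X, closure A ⊆ seqClosure (seqClosure A))
    (h1 : ¬ FrechetUrysohnSpace X) : seqOrder X = 2 := by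
  have hsub : ∀ A : Set X, seqClosure A ⊆ closure A := fun A => seqClosure_subset_closure
  have hmem : (2 : Ordinal.{0}) ∈ {α | ∀ A : Set X, seqIter A α = closure A} := by
    intro A
    rw [seqIter_two]
    refine Set.Subset.antisymm ?_ (h2 A)
    refine (hsub _).trans ?_
    rw [← closure_closure (s := A)]
    exact closure_mono (hsub A)
  apply le_antisymm (csInf_le' hmem)
  refine le_csInf ⟨_, hmem⟩ fun α hα => ?_
  by_contra hlt
  rw [not_le] at hlt
  apply h1
  have h3 : α = 0 ∨ α = 1 := by
    have h4 : (2 : Ordinal.{0}) = Order.succ 1 := by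
      rw [← one_add_one_eq_two, Ordinal.add_one_eq_succ]
    rw [h4, Order.lt_succ_iff] at hlt
    rcases hlt.lt_or_eq with h | h
    · left; exact Ordinal.lt_one_iff_zero.1 h
    · right; exact h
  refine ⟨fun A => ?_⟩
  rcases h3 with rfl | rfl
  · have := hα A
    rw [seqIter_zero] at this
    rw [← this]
    exact subset_seqClosure
  · have := hα A
    rw [seqIter_one] at this
    rw [← this]

end

/-- the product of two Fréchet–Urysohn spaces, one of them regular and sequentially compact, has
sequential order at most two -/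
theorem order_prod (X Y : Type) [TopologicalSpace X] [TopologicalSpace Y]
    [FrechetUrysohnSpace X] [FrechetUrysohnSpace Y] [RegularSpace Y] [SeqCompactSpace Y]
    (A : Set (X × Y)) : closure A ⊆ seqClosure (seqClosure A) := by
  rintro ⟨x, y⟩ hxy
  by_contra hn
  have h1 : y ∉ closure {y' : Y | (x, y') ∈ seqClosure A} := by
    intro hc
    obtain ⟨w, hw, hwy⟩ := FrechetUrysohnSpace.closure_subset_seqClosure _ hc
    exact hn ⟨fun n => (x, w n), hw, tendsto_const_nhds.prodMk_nhds hwy⟩
  obtain ⟨C, hC, hCcl, hCS⟩ := exists_mem_nhds_isClosed_subset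
    (isClosed_closure.isOpen_compl.mem_nhds h1)
  have h2 : x ∉ closure {x' : X | ∃ y' ∈ C, (x', y') ∈ A} := by
    intro hc
    obtain ⟨w, hw, hwx⟩ := FrechetUrysohnSpace.closure_subset_seqClosure _ hc
    choose v hv hvA using hw
    obtain ⟨b, ψ, hψ, hb⟩ := SeqCompactSpace.tendsto_subseq v
    have hbC : b ∈ C := hCcl.mem_of_tendsto hb (Eventually.of_forall fun n => hv _)
    refine hCS hbC (subset_closure ?_)
    exact ⟨fun n => (w (ψ n), v (ψ n)), fun n => hvA _,
      (hwx.comp hψ.tendsto_atTop).prodMk_nhds hb⟩
  obtain ⟨⟨x', y'⟩, ⟨hx', hy'⟩, hA⟩ := mem_closure_iff_nhds.1 hxy _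
    (prod_mem_nhds (isClosed_closure.isOpen_compl.mem_nhds h2) hC)
  exact hx' (subset_closure ⟨y', hy', hA⟩)

end Pool.Agent.W654.IO
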