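import Pool.Agent.W654.IO.Wreath

/-!
# The ultrapower: topologizable, but no nontrivial convergent sequences in any group topology
-/

set_option autoImplicit false

namespace Pool.Agent.W654.IO

open Filter Topology

/-- the ultrapower of `HH` -/
abbrev G2 : Type := Filter.Germ ((hyperfilter ℕ : Ultrafilter ℕ) : Filter ℕ) HH

lemma countable_sep (x : ℕ → G2) (hx : ∀ i, x i ≠ 1) : ∃ a b : G2, a * b ≠ b * a ∧
    ∀ i, a * (x i * b * (x i)⁻¹) = x i * b * (x i)⁻¹ * a := by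
  classical
  have h1 : ∀ i, ∃ f : ℕ → HH, (f : G2) = x i := fun i => Quotient.exists_rep (x i)
  choose f hf using h1
  have h2 : ∀ n, ∃ a b : HH, a * b ≠ b * a ∧
      ∀ y ∈ (((Finset.range (n + 1)).image fun i => f i n : Finset HH) : Set HH), y ≠ 1 →
        a * (y * b * y⁻¹) = y * b * y⁻¹ * a := fun n => finite_sep _ (Finset.finite_toSet _)
  choose a b hab hsep using h2
  refine ⟨(a : G2), (b : G2), fun hc => ?_, fun i => ?_⟩
  · rw [← Germ.coe_mul, ← Germ.coe_mul, Germ.coe_eq] at hc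
    obtain ⟨n, hn⟩ := hc.exists
    exact hab n hn
  · rw [← hf i, ← Germ.coe_inv, ← Germ.coe_mul, ← Germ.coe_mul, ← Germ.coe_mul, ← Germ.coe_mul,
      Germ.coe_eq]
    have h3 : ∀ᶠ n in ((hyperfilter ℕ : Ultrafilter ℕ) : Filter ℕ), f i n ≠ 1 := by
      have h4 : ¬ ∀ᶠ n in ((hyperfilter ℕ : Ultrafilter ℕ) : Filter ℕ), f i n = 1 := by
        intro hc
        apply hx i
        rw [← hf i, ← Germ.coe_one, Germ.coe_eq]
        exact hc
      exact Ultrafilter.eventually_not.2 h4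
    have h5 : ∀ᶠ n in ((hyperfilter ℕ : Ultrafilter ℕ) : Filter ℕ), i ≤ n := by
      have h6 : ∀ᶠ n in (cofinite : Filter ℕ), i ≤ n := by
        rw [Nat.cofinite_eq_atTop]; exact eventually_ge_atTop i
      exact (hyperfilter_le_cofinite (α := ℕ)) h6
    filter_upwards [h3, h5] with n hn hin
    refine hsep n (f i n) ?_ hn
    exact Finset.mem_coe.2 (Finset.mem_image.2 ⟨i, Finset.mem_range.2 (by omega), rfl⟩)

/-- in a Hausdorff group topology only trivial sequences converge -/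
lemma eventually_eq [TopologicalSpace G2] [IsTopologicalGroup G2] [T2Space G2]
    {x : ℕ → G2} {g : G2} (h : Tendsto x atTop (𝓝 g)) : ∀ᶠ n in atTop, x n = g := by
  by_contra hc
  rw [not_eventually] at hc
  obtain ⟨φ, hφ, h1⟩ := extraction_of_frequently_atTop hc
  set y : ℕ → G2 := fun n => x (φ n) * g⁻¹ with hy
  have hy1 : ∀ i, y i ≠ 1 := fun i hi => h1 i (mul_inv_eq_one.1 hi)
  have hyt : Tendsto y atTop (𝓝 1) := by
    have := (h.comp hφ.tendsto_atTop).mul_const g⁻¹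
    rwa [mul_inv_cancel] at this
  obtain ⟨a, b, hab, hsep⟩ := countable_sep y hy1
  have hc1 : Continuous fun z : G2 => a * (z * b * z⁻¹) := by fun_prop
  have hc2 : Continuous fun z : G2 => z * b * z⁻¹ * a := by fun_prop
  have t1 := (hc1.tendsto 1).comp hyt
  have t2 := (hc2.tendsto 1).comp hyt
  have e : (fun z : G2 => a * (z * b * z⁻¹)) ∘ y = (fun z : G2 => z * b * z⁻¹ * a) ∘ y := by
    funext i
    exact hsep i
  rw [e] at t1
  have := tendsto_nhds_unique t1 t2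
  simp only [one_mul, inv_one, mul_one] at this
  exact hab this

theorem discrete_of_sequential [TopologicalSpace G2] [IsTopologicalGroup G2] [T2Space G2]
    [SequentialSpace G2] : DiscreteTopology G2 := by
  rw [discreteTopology_iff_forall_isClosed]
  intro A
  apply SequentialSpace.isClosed_of_seq
  intro x g hx hg
  obtain ⟨n, hn⟩ := (eventually_eq hg).exists
  rw [← hn]
  exact hx n

/-! ### A nondiscrete Hausdorff group topology -/

/-- sequences which are trivial up to the level `κ` -/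
def MM (κ : ℕ → ℕ) : Subgroup (ℕ → HH) where
  carrier := {f | ∀ᶠ n in ((hyperfilter ℕ : Ultrafilter ℕ) : Filter ℕ),
    (f n : ∀ n, Gr n) (κ n) = 1}
  mul_mem' := by
    intro f g hf hg
    filter_upwards [hf, hg] with n h1 h2
    simp [h1, h2]
  one_mem' := Eventually.of_forall fun n => rfl
  inv_mem' := by
    intro f hf
    filter_upwards [hf] with n h1
    simp [h1]

instance (κ : ℕ → ℕ) : (MM κ).Normal := ⟨fun f hf g => by
  change ∀ᶠ n in _, _
  filter_upwards [hf] with n h1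
  have : ((g * f * g⁻¹) n : ∀ n, Gr n) (κ n) =
    (g n : ∀ n, Gr n) (κ n) * (f n : ∀ n, Gr n) (κ n) * ((g n : ∀ n, Gr n) (κ n))⁻¹ := rfl
  rw [this, h1]
  group⟩

/-- the quotient map -/
noncomputable def toG2 : (ℕ → HH) →* G2 where
  toFun := fun f => (f : G2)
  map_one' := rfl
  map_mul' := fun _ _ => rfl

lemma toG2_surj : Function.Surjective toG2 := fun x => Quotient.exists_rep x

/-- the open subgroups -/
noncomputable def NN (κ : ℕ → ℕ) : Subgroup G2 := (MM κ).map toG2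

instance (κ : ℕ → ℕ) : (NN κ).Normal := Subgroup.Normal.map inferInstance toG2 toG2_surj

lemma mem_NN {κ : ℕ → ℕ} {f : ℕ → HH} : (f : G2) ∈ NN κ ↔ f ∈ MM κ := by
  constructor
  · rintro ⟨g, hg, hgf⟩
    have h1 : g =ᶠ[((hyperfilter ℕ : Ultrafilter ℕ) : Filter ℕ)] f := Germ.coe_eq.1 hgf
    change ∀ᶠ n in _, _
    filter_upwards [hg, h1] with n h2 h3
    rw [← h3]; exact h2
  · exact fun h => ⟨f, h, rfl⟩

lemma NN_anti {κ κ' : ℕ → ℕ} (h : ∀ n, κ n ≤ κ' n) : NN κ' ≤ NN κ := by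
  intro x hx
  obtain ⟨f, rfl⟩ := toG2_surj x
  change (f : G2) ∈ NN κ
  have hx' : (f : G2) ∈ NN κ' := hx
  rw [mem_NN] at hx' ⊢
  change ∀ᶠ n in _, _
  have hx'' : ∀ᶠ n in ((hyperfilter ℕ : Ultrafilter ℕ) : Filter ℕ),
    (f n : ∀ n, Gr n) (κ' n) = 1 := hx'
  filter_upwards [hx''] with n hn
  exact eq_one_below (f n).2.1 (h n) hn

lemma NN_ne_bot (κ : ℕ → ℕ) : ∃ x ∈ NN κ, x ≠ 1 := by
  have h1 : ∀ n, ∃ f : HH, (f : ∀ n, Gr n) (κ n) = 1 ∧ f ≠ 1 := by
    intro n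
    obtain ⟨a, ha, ha1, ha2⟩ := exists_lift (κ n + 1) (loc (κ n) (Equiv.swap 0 1))
    refine ⟨⟨a, ha⟩, ?_, fun hc => ?_⟩
    · change a (κ n) = 1
      rw [← ha.1 (κ n), ha1]
      exact down_loc _ _
    · have h2 : a = 1 := congrArg Subtype.val hc
      rw [h2] at ha1
      exact loc_ne (n := κ n) (σ := Equiv.swap 0 1) (by decide) ha1.symm
  choose f hf1 hf2 using h1
  refine ⟨(f : G2), mem_NN.2 (Eventually.of_forall hf1), fun hc => ?_⟩
  rw [← Germ.coe_one, Germ.coe_eq] at hc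
  obtain ⟨n, hn⟩ := hc.exists
  exact hf2 n hn

lemma NN_sep {x : G2} (hx : x ≠ 1) : ∃ κ, x ∉ NN κ := by
  classical
  obtain ⟨f, rfl⟩ := toG2_surj x
  have h1 : ∀ n, ∃ k, f n ≠ 1 → (f n : ∀ n, Gr n) k ≠ 1 := by
    intro n
    by_cases h : f n = 1
    · exact ⟨0, fun hc => (hc h).elim⟩
    · have : (f n : ∀ n, Gr n) ≠ 1 := fun hc => h (Subtype.ext hc)
      obtain ⟨k, hk⟩ := Function.ne_iff.1 this
      exact ⟨k, fun _ => hk⟩
  choose κ hκ using h1
  refine ⟨κ, fun hc => hx ?_⟩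
  have hc' : (f : G2) ∈ NN κ := hc
  rw [mem_NN] at hc'
  change (f : G2) = 1
  rw [← Germ.coe_one, Germ.coe_eq]
  have hc'' : ∀ᶠ n in ((hyperfilter ℕ : Ultrafilter ℕ) : Filter ℕ),
    (f n : ∀ n, Gr n) (κ n) = 1 := hc'
  filter_upwards [hc''] with n hn
  by_contra hne
  exact hκ n hne hn

theorem topologizable : ∃ t : TopologicalSpace G2, @IsTopologicalGroup G2 t _ ∧ @T2Space G2 t ∧
    ¬ @DiscreteTopology G2 t := by
  classical
  let _ : ∀ κ : ℕ → ℕ, TopologicalSpace (G2 ⧸ NN κ) := fun _ => ⊥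
  have _ : ∀ κ : ℕ → ℕ, DiscreteTopology (G2 ⧸ NN κ) := fun _ => ⟨rfl⟩
  let ψ : G2 →* ∀ κ : ℕ → ℕ, G2 ⧸ NN κ := MonoidHom.pi fun κ => QuotientGroup.mk' (NN κ)
  have hψ : ∀ x κ, ψ x κ = 1 ↔ x ∈ NN κ := fun x κ => by
    change (QuotientGroup.mk' (NN κ)) x = 1 ↔ _
    rw [← MonoidHom.mem_ker, QuotientGroup.ker_mk']
  have hinj : Function.Injective ψ := by
    rw [injective_iff_map_eq_one]
    intro x hx
    by_contra hne
    obtain ⟨κ, hκ⟩ := NN_sep hne
    exact hκ ((hψ x κ).1 (congrFun hx κ))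
  let t : TopologicalSpace G2 := TopologicalSpace.induced ψ inferInstance
  refine ⟨t, topologicalGroup_induced ψ, ?_, fun hd => ?_⟩
  · let _ := t
    exact (Topology.IsEmbedding.mk ⟨rfl⟩ hinj).t2Space
  · let _ := t
    have h1 : IsOpen ({1} : Set G2) := isOpen_discrete _
    obtain ⟨V, hV, hV1⟩ := isOpen_induced_iff.1 h1
    have h2 : (1 : ∀ κ : ℕ → ℕ, G2 ⧸ NN κ) ∈ V := by
      have : (1 : G2) ∈ ψ ⁻¹' V := by rw [hV1]; rfl
      simpa using this
    obtain ⟨I, w, hw1, hw2⟩ := isOpen_pi_iff.1 hV 1 h2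
    obtain ⟨x, hx, hx1⟩ := NN_ne_bot fun n => ∑ κ ∈ I, κ n
    apply hx1
    have h3 : x ∈ ψ ⁻¹' V := by
      refine hw2 fun κ hκ => ?_
      have h4 : x ∈ NN κ := NN_anti (fun n => Finset.single_le_sum (f := fun κ : ℕ → ℕ => κ n)
        (fun _ _ => Nat.zero_le _) (Finset.mem_coe.1 hκ)) hx
      rw [(hψ x κ).2 h4]
      exact (hw1 κ (Finset.mem_coe.1 hκ)).2
    rw [hV1] at h3
    exact h3

end Pool.Agent.W654.IO
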