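import Mathlib

/-!
# A group in which countable sets are discrete in every Hausdorff group topology
-/

set_option autoImplicit false

namespace Pool.Agent.W654.IO

open Filter Topology

abbrev S3 := Equiv.Perm (Fin 3)

/-- the iterated wreath products -/
def Lev : ℕ → Σ G : Type, Group G
  | 0 => ⟨Unit, inferInstance⟩
  | n + 1 => letI := (Lev n).2; ⟨RegularWreathProduct S3 (Lev n).1, inferInstance⟩

def Gr (n : ℕ) : Type := (Lev n).1

instance (n : ℕ) : Group (Gr n) := (Lev n).2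

/-- the embedding of a level in the next one -/
def up (n : ℕ) : Gr n →* Gr (n + 1) := (RegularWreathProduct.inl : Gr n →* RegularWreathProduct S3 (Gr n))

/-- the retraction -/
def down (n : ℕ) : Gr (n + 1) →* Gr n :=
  (RegularWreathProduct.rightHom : RegularWreathProduct S3 (Gr n) →* Gr n)

lemma down_up (n : ℕ) (q : Gr n) : down n (up n q) = q := rfl

open Classical in
/-- an element of the base group concentrated at `1` -/
noncomputable def loc (n : ℕ) (σ : S3) : Gr (n + 1) :=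
  (⟨Pi.mulSingle 1 σ, 1⟩ : RegularWreathProduct S3 (Gr n))

lemma down_loc (n : ℕ) (σ : S3) : down n (loc n σ) = 1 := rfl

lemma loc_comm {n : ℕ} {σ τ : S3} (h : loc n σ * loc n τ = loc n τ * loc n σ) : σ * τ = τ * σ := by
  classical
  have h1 := congrArg (fun x : RegularWreathProduct S3 (Gr n) => x.left (1 : Gr n)) h
  have e : ∀ σ τ : S3, ((loc n σ * loc n τ : RegularWreathProduct S3 (Gr n))).left (1 : Gr n) = σ * τ := by
    intro σ τ
    change (Pi.mulSingle (1 : Gr n) σ : Gr n → S3) 1 *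
      (Pi.mulSingle (1 : Gr n) τ : Gr n → S3) ((1 : Gr n)⁻¹ * 1) = _
    simp
  have h2 : σ * τ = τ * σ := by
    rw [← e σ τ, ← e τ σ]
    exact h1
  exact h2

lemma loc_ne {n : ℕ} {σ : S3} (h : σ ≠ 1) : loc n σ ≠ 1 := by
  classical
  intro hc
  have h1 := congrArg (fun x : RegularWreathProduct S3 (Gr n) => x.left (1 : Gr n)) hc
  apply h
  have : (Pi.mulSingle (1 : Gr n) σ : Gr n → S3) 1 = 1 := h1
  simpa using this

lemma conj_comm {n : ℕ} {q : Gr n} (hq : q ≠ 1) (σ τ : S3) :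
    loc n σ * (up n q * loc n τ * (up n q)⁻¹) = up n q * loc n τ * (up n q)⁻¹ * loc n σ := by
  classical
  apply RegularWreathProduct.ext
  · funext (y : Gr n)
    change (Pi.mulSingle (1 : Gr n) σ : Gr n → S3) y *
        ((1 * (Pi.mulSingle (1 : Gr n) τ : Gr n → S3) (q⁻¹ * ((1 : Gr n)⁻¹ * y))) *
          (1 : S3)⁻¹) =
      ((1 * (Pi.mulSingle (1 : Gr n) τ : Gr n → S3) (q⁻¹ * y)) * (1 : S3)⁻¹) *
        (Pi.mulSingle (1 : Gr n) σ : Gr n → S3) ((q * 1 * q⁻¹)⁻¹ * y)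
    have e1 : (q * 1 * q⁻¹)⁻¹ * y = y := by group
    have e2 : q⁻¹ * ((1 : Gr n)⁻¹ * y) = q⁻¹ * y := by group
    rw [e1, e2]
    by_cases hy : y = 1
    · subst hy
      have : q⁻¹ * 1 ≠ (1 : Gr n) := by simpa using hq
      rw [Pi.mulSingle_eq_of_ne this]
      simp
    · rw [Pi.mulSingle_eq_of_ne hy]
      simp
  · change (1 : Gr n) * (q * 1 * q⁻¹) = q * 1 * q⁻¹ * 1
    group

/-- the direct limit of the levels, as a subgroup of the inverse limit -/
def HH : Subgroup (∀ n, Gr n) where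
  carrier := {h | (∀ n, down n (h (n + 1)) = h n) ∧ ∃ N, ∀ n, N ≤ n → h (n + 1) = up n (h n)}
  mul_mem' := by
    rintro a b ⟨h1, N, h2⟩ ⟨h3, M, h4⟩
    refine ⟨fun n => by rw [Pi.mul_apply, Pi.mul_apply, map_mul, h1, h3], max N M, fun n hn => ?_⟩
    rw [Pi.mul_apply, Pi.mul_apply, map_mul, h2 n (le_trans (le_max_left _ _) hn),
      h4 n (le_trans (le_max_right _ _) hn)]
  one_mem' := ⟨fun n => by simp, 0, fun n _ => by simp⟩
  inv_mem' := by
    rintro a ⟨h1, N, h2⟩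
    exact ⟨fun n => by rw [Pi.inv_apply, Pi.inv_apply, map_inv, h1], N, fun n hn => by
      rw [Pi.inv_apply, Pi.inv_apply, map_inv, h2 n hn]⟩

/-- `h` is constant from the level `N` on -/
def Stab (N : ℕ) (h : ∀ n, Gr n) : Prop := ∀ n, N ≤ n → h (n + 1) = up n (h n)

lemma Stab.mono {N M : ℕ} {h : ∀ n, Gr n} (hh : Stab N h) (hNM : N ≤ M) : Stab M h :=
  fun n hn => hh n (hNM.trans hn)

lemma eq_one_below {h : ∀ n, Gr n} (h1 : ∀ n, down n (h (n + 1)) = h n) {k m : ℕ} (hkm : k ≤ m)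
    (hm : h m = 1) : h k = 1 := by
  induction hkm with
  | refl => exact hm
  | step _ ih => exact ih (by rw [← h1, hm, map_one])

lemma eq_one_of {h : ∀ n, Gr n} (h1 : ∀ n, down n (h (n + 1)) = h n) {N : ℕ} (hN : Stab N h)
    (h2 : h N = 1) : h = 1 := by
  funext n
  rcases le_total n N with hn | hn
  · exact eq_one_below h1 hn h2
  · induction hn with
    | refl => exact h2
    | step hk ih => rw [hN _ hk, ih]; simp

lemma exists_lift (m : ℕ) (g : Gr m) : ∃ h ∈ HH, h m = g ∧ Stab m h := by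
  suffices h : ∃ f : ∀ n, Gr n, f m = g ∧ (∀ n < m, down n (f (n + 1)) = f n) ∧ Stab m f by
    obtain ⟨f, h1, h2, h3⟩ := h
    refine ⟨f, ⟨fun n => ?_, m, h3⟩, h1, h3⟩
    rcases lt_or_ge n m with hn | hn
    · exact h2 n hn
    · rw [h3 n hn]; rfl
  induction m with
  | zero =>
    refine ⟨fun n => Nat.rec g (fun n x => up n x) n, rfl, fun n hn => absurd hn (Nat.not_lt_zero n),
      fun n _ => rfl⟩
  | succ m ih =>
    obtain ⟨f, h1, h2, h3⟩ := ih (down m g)
    let f' : ∀ n, Gr n := fun n => if h : m + 1 ≤ n then Nat.leRecOn (C := Gr) h (fun {k} => up k) g else f n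
    have e1 : ∀ n, n ≤ m → f' n = f n := fun n hn => dif_neg (by omega)
    have e2 : f' (m + 1) = g := by
      simp only [f', le_refl, dif_pos]
      exact Nat.leRecOn_self g
    refine ⟨f', e2, fun n hn => ?_, fun n hn => ?_⟩
    · rcases Nat.lt_succ_iff_lt_or_eq.1 hn with h | h
      · rw [e1 n h.le, e1 (n + 1) h, h2 n h]
      · subst h
        rw [e2, e1 n le_rfl, h1]
    · have e3 : f' n = Nat.leRecOn (C := Gr) hn (fun {k} => up k) g := dif_pos hn
      have e4 : f' (n + 1) = Nat.leRecOn (C := Gr) (le_trans hn (Nat.le_succ n)) (fun {k} => up k) g :=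
        dif_pos _
      rw [e3, e4]
      exact Nat.leRecOn_succ hn g

/-- finite sets are separated from `1` by a commutator word -/
lemma finite_sep (A : Set HH) (hA : A.Finite) : ∃ a b : HH, a * b ≠ b * a ∧
    ∀ x ∈ A, x ≠ 1 → a * (x * b * x⁻¹) = x * b * x⁻¹ * a := by
  classical
  obtain ⟨N, hN⟩ : ∃ N, ∀ x ∈ A, Stab N (x : ∀ n, Gr n) := by
    have h1 : ∀ x : HH, ∃ N, Stab N (x : ∀ n, Gr n) := fun x => x.2.2
    choose κ hκ using h1
    refine ⟨∑ x ∈ hA.toFinset, κ x, fun x hx => (hκ x).mono ?_⟩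
    exact Finset.single_le_sum (f := κ) (fun _ _ => Nat.zero_le _) (hA.mem_toFinset.2 hx)
  obtain ⟨a, ha, ha1, ha2⟩ := exists_lift (N + 1) (loc N (Equiv.swap 0 1))
  obtain ⟨b, hb, hb1, hb2⟩ := exists_lift (N + 1) (loc N (Equiv.swap 1 2))
  refine ⟨⟨a, ha⟩, ⟨b, hb⟩, fun hc => ?_, fun x hx hx1 => ?_⟩
  · have h1 := congrFun (congrArg Subtype.val hc) (N + 1)
    have h2 : loc N (Equiv.swap 0 1) * loc N (Equiv.swap 1 2) =
        loc N (Equiv.swap 1 2) * loc N (Equiv.swap 0 1) := by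
      rw [← ha1, ← hb1]; exact h1
    exact absurd (loc_comm h2) (by decide)
  · have hxN : (x : ∀ n, Gr n) N ≠ 1 := fun hc => hx1 (Subtype.ext (eq_one_of x.2.1 (hN x hx) hc))
    have hx2 : (x : ∀ n, Gr n) (N + 1) = up N ((x : ∀ n, Gr n) N) := hN x hx N le_rfl
    rw [← mul_inv_eq_one]
    set y : HH := (⟨a, ha⟩ : HH) * (x * ⟨b, hb⟩ * x⁻¹) * (x * ⟨b, hb⟩ * x⁻¹ * ⟨a, ha⟩)⁻¹ with hy
    have hyv : (y : ∀ n, Gr n) = a * ((x : ∀ n, Gr n) * b * (x : ∀ n, Gr n)⁻¹) *
      ((x : ∀ n, Gr n) * b * (x : ∀ n, Gr n)⁻¹ * a)⁻¹ := rfl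
    apply Subtype.ext
    refine eq_one_of y.2.1 (N := N + 1) ?_ ?_
    · intro n hn
      have h1 := ha2 n hn
      have h2 := hb2 n hn
      have h3 := hN x hx n (by omega)
      rw [hyv]
      simp only [Pi.mul_apply, Pi.inv_apply, h1, h2, h3, map_mul, map_inv]
    · rw [hyv]
      simp only [Pi.mul_apply, Pi.inv_apply, ha1, hb1, hx2]
      rw [conj_comm hxN, mul_inv_cancel]

end Pool.Agent.W654.IO
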